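import Pool.Agent.Q60.RG.C

/-!
# The kernel of the monodromy operator on the product with a test variety

Let `Y` be a variety for which the weight-monodromy conjecture is known. Then the dimension of the
kernel of `N` on `H^*(X × Y)` minus the dimension predicted by the weights is the sum over the Jordan
blocks of `N` on `H^*(Y)` (`r` denoting the size of the block) of
`dim ker (N^r ∣ H^*(X)) - #(weights in (m - r, m + r])`, and all these numbers are nonnegative.
-/

set_option autoImplicit false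

open Module TensorProduct

namespace Pool.Agent.Q60.TV

universe u v w

open Pool.Agent.Y143 Pool.Agent.Y163.MW Pool.Agent.Y163.MW.Coh Pool.Agent.Q60.PL Pool.Agent.Q60.RG

section count

/-- The number of the `i ≤ l` with `τ - 2 i` in the window `(-k, k]`. -/
def win (τ : ℤ) (l k : ℕ) : ℕ :=
  (Finset.univ.filter (fun i : Fin (l + 1) =>
    -(k : ℤ) < τ - 2 * (i : ℕ) ∧ τ - 2 * (i : ℕ) ≤ k)).card

lemma win_self (l k : ℕ) : win l l k = min k (l + 1) := card_win l k

lemma win_le (τ : ℤ) (l k : ℕ) : win τ l k ≤ min k (l + 1) := by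
  refine le_min ?_ ?_
  · unfold win
    have h1 : (Finset.univ.filter (fun i : Fin (l + 1) =>
        -(k : ℤ) < τ - 2 * (i : ℕ) ∧ τ - 2 * (i : ℕ) ≤ k)).card ≤
        (Finset.Ico ((τ - k + 1) / 2) ((τ + k + 1) / 2)).card := by
      refine Finset.card_le_card_of_injOn (fun i : Fin (l + 1) => ((i : ℕ) : ℤ)) ?_ ?_
      · intro i hi
        rw [Finset.mem_coe, Finset.mem_filter] at hi
        rw [Finset.mem_coe, Finset.mem_Ico]
        simp only
        omega
      · intro i _ j _ hij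
        simp only at hij
        apply Fin.ext
        exact_mod_cast hij
    rw [Int.card_Ico] at h1
    omega
  · unfold win
    refine (Finset.card_filter_le _ _).trans ?_
    simp

/-- If all the `τ - 2 i` lie in the window `(-(l + 1), l + 1]`, then `τ` is `l` or `l + 1`. -/
lemma of_win {τ : ℤ} {l : ℕ} (h : win τ l (l + 1) = l + 1) : (l : ℤ) ≤ τ ∧ τ ≤ l + 1 := by
  unfold win at h
  have h1 : Finset.univ.filter (fun i : Fin (l + 1) =>
      -((l + 1 : ℕ) : ℤ) < τ - 2 * (i : ℕ) ∧ τ - 2 * (i : ℕ) ≤ (l + 1 : ℕ)) = Finset.univ := by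
    apply Finset.eq_univ_of_card
    rw [h]
    simp
  have h2 : ∀ i : Fin (l + 1), -((l + 1 : ℕ) : ℤ) < τ - 2 * (i : ℕ) ∧
      τ - 2 * (i : ℕ) ≤ (l + 1 : ℕ) := by
    intro i
    have : i ∈ (Finset.univ : Finset (Fin (l + 1))) := Finset.mem_univ i
    rw [← h1, Finset.mem_filter] at this
    exact this.2
  have h3 := h2 0
  have h4 := h2 (Fin.last l)
  rw [Fin.val_last] at h4
  simp only [Fin.val_zero] at h3
  push_cast at h3 h4
  constructor <;> omega

lemma pair_card (x : ℤ) (l : ℕ) :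
    (Finset.univ.filter (fun i : Fin (l + 1) =>
      x + ((l : ℤ) - 2 * (i : ℕ)) = 0 ∨ x + ((l : ℤ) - 2 * (i : ℕ)) = 1)).card =
    if -((l + 1 : ℕ) : ℤ) < x ∧ x ≤ (l + 1 : ℕ) then 1 else 0 := by
  split_ifs with h
  · rw [Finset.card_eq_one]
    refine ⟨⟨((x + l) / 2).toNat, by omega⟩, ?_⟩
    ext i
    rw [Finset.mem_filter, Finset.mem_singleton, Fin.ext_iff]
    simp only [Finset.mem_univ, true_and]
    omega
  · rw [Finset.card_eq_zero, Finset.filter_eq_empty_iff]
    intro i _ hi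
    apply h
    have := i.2
    constructor <;> omega

end count

section strings

variable {K : Type*} [Field K] {V : Type*} [AddCommGroup V] [Module K V]
  {gr : ℤ → Submodule K V} {N : Module.End K V}
  {V' : Type*} [AddCommGroup V'] [Module K V'] {gr' : ℤ → Submodule K V'} {N' : Module.End K V'}

lemma card_pairs (S : Strings gr N) (S' : Strings gr' N') (f : S.P → ℤ) :
    Nat.card {p : S.P × S'.P // f p.1 + S'.ct p.2 = 0 ∨ f p.1 + S'.ct p.2 = 1} =
      ∑ s' : S'.ι, Nat.card {p : S.P // -((S'.len s' + 1 : ℕ) : ℤ) < f p ∧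
        f p ≤ (S'.len s' + 1 : ℕ)} := by
  classical
  rw [Nat.card_eq_fintype_card, Fintype.card_subtype, Finset.card_filter,
    Fintype.sum_prod_type_right, Fintype.sum_sigma]
  refine Finset.sum_congr rfl fun s' _ => ?_
  rw [Finset.sum_comm, Nat.card_eq_fintype_card, Fintype.card_subtype, Finset.card_filter]
  refine Finset.sum_congr rfl fun p _ => ?_
  rw [← pair_card (f p) (S'.len s'), Finset.card_filter]
  rfl

lemma card_wt (S : Strings gr N) (k : ℕ) :
    Nat.card {p : S.P // -(k : ℤ) < S.wt p ∧ S.wt p ≤ k} = ∑ s, win (S.top s) (S.len s) k := by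
  classical
  rw [Nat.card_eq_fintype_card, Fintype.card_subtype, Finset.card_filter, Fintype.sum_sigma]
  refine Finset.sum_congr rfl fun s _ => ?_
  rw [win, Finset.card_filter]
  rfl

end strings

variable {Ω : Type w} [Field Ω] [CharZero Ω] {R R' R'' : Coh.{v, w} Ω} {q : ℕ}

/-- The dimension of the kernel of `N ^ r` on the whole cohomology. -/
noncomputable def kdim (R : Coh.{v, w} Ω) (r : ℕ) : ℕ := finrank Ω (LinearMap.ker (R.N ^ r))

/-- The number of the Frobenius eigenvalues on the `H^m` with weight in `(m - r, m + r]`. -/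
noncomputable def wdim (R : Coh.{v, w} Ω) (q r : ℕ) : ℕ :=
  ∑ c ∈ Finset.Ioc (-(r : ℤ)) r, finrank Ω (R.tot q c)

/-- The number of the Jordan blocks of `N` of size `r + 1`. -/
noncomputable def blocks (R : Coh.{v, w} Ω) (r : ℕ) : ℤ :=
  2 * (kdim R (r + 1) : ℤ) - kdim R r - kdim R (r + 2)

lemma kdim_eq (hR : IsWCoh R q) (S : Strings (R.tot q) R.N) (k : ℕ) :
    kdim R k = ∑ s, min k (S.len s + 1) := by
  have := hR.finite
  rw [kdim, finrank_ker_strings S k, card_window]

lemma wdim_eq' (hq : 1 < q) (hR : IsWCoh R q) (S : Strings (R.tot q) R.N) (k : ℕ) :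
    wdim R q k = Nat.card {p : S.P // -(k : ℤ) < S.wt p ∧ S.wt p ≤ k} := by
  classical
  rw [wdim, Nat.card_eq_fintype_card, Fintype.card_subtype]
  have h1 : ∀ c, finrank Ω (R.tot q c) =
      (Finset.univ.filter (fun p : S.P => S.wt p = c)).card := by
    intro c
    rw [w_finrank_tot hq hR (adp_strings S) c, Nat.card_eq_fintype_card, Fintype.card_subtype]
  rw [Finset.sum_congr rfl (fun c _ => h1 c), ← Finset.card_biUnion]
  · congr 1
    ext p
    simp only [Finset.mem_biUnion, Finset.mem_Ioc, Finset.mem_filter, Finset.mem_univ, true_and]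
    constructor
    · rintro ⟨c, hc, rfl⟩
      exact hc
    · intro h
      exact ⟨_, h, rfl⟩
  · intro c _ c' _ hcc
    rw [Function.onFun, Finset.disjoint_filter]
    intro p _ h2 h3
    exact hcc (h2.symm.trans h3)

lemma wdim_eq (hq : 1 < q) (hR : IsWCoh R q) (S : Strings (R.tot q) R.N) (k : ℕ) :
    wdim R q k = ∑ s, win (S.top s) (S.len s) k := by
  rw [wdim_eq' hq hR S, card_wt]

lemma blocks_eq (hR : IsWCoh R q) (S : Strings (R.tot q) R.N) (r : ℕ) :
    blocks R r = (Nat.card {s : S.ι // (S.len s : ℤ) = r} : ℤ) := by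
  classical
  rw [blocks, kdim_eq hR S, kdim_eq hR S, kdim_eq hR S, Nat.card_eq_fintype_card,
    Fintype.card_subtype, Finset.card_filter]
  push_cast
  rw [Finset.mul_sum, ← Finset.sum_sub_distrib, ← Finset.sum_sub_distrib]
  refine Finset.sum_congr rfl fun s _ => ?_
  split_ifs <;> omega

variable [IsAlgClosed Ω]

theorem wdim_le (hq : 1 < q) (hR : IsWCoh R q) (k : ℕ) : wdim R q k ≤ kdim R k := by
  obtain ⟨S⟩ := w_exists_strings hq hR
  rw [kdim_eq hR S, wdim_eq hq hR S]
  exact Finset.sum_le_sum fun s _ => win_le _ _ _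

/-- The kernel on the product. -/
lemma inv_prod (hq : 1 < q) (S : Strings (R.tot q) R.N)
    (S' : Strings (R'.tot q) R'.N) (hR : IsWCoh R q)
    {κ : R.V ⊗[Ω] R'.V ≃ₗ[Ω] R''.V} (hκ : IsKunneth R R' R'' κ) :
    R''.inv = ∑ s', kdim R (S'.len s' + 1) := by
  have hB1 := Pool.Agent.Y954.MW.stB1.{w, v} Pool.Agent.Y141.MW.stL
  have := hR.finite
  have H := (adp_strings S).prod (adp_strings S') (by omega) hκ
  rw [H.inv_eq hB1, card_pairs S S' S.ct]
  refine Finset.sum_congr rfl fun s' _ => ?_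
  rw [kdim, finrank_ker_strings S]

lemma pred_prod (hq : 1 < q) (S : Strings (R.tot q) R.N)
    (S' : Strings (R'.tot q) R'.N) (hR : IsWCoh R q) (hR' : IsWCoh R' q) (hR'' : IsWCoh R'' q)
    (hY : ∀ m, R'.MWPure q m)
    {κ : R.V ⊗[Ω] R'.V ≃ₗ[Ω] R''.V} (hκ : IsKunneth R R' R'' κ) :
    R''.pred q = ∑ s', wdim R q (S'.len s' + 1) := by
  have H := (adp_strings S).prod (adp_strings S') (by omega) hκ
  have h1 := (w_mw_iff hq hR' S').1 hY
  have h2 : S'.wt = S'.ct := by
    funext p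
    unfold Strings.wt Strings.ct
    rw [h1 p.1]
  rw [h2] at H
  rw [w_pred_eq hq hR'' H, card_pairs S S' S.wt]
  refine Finset.sum_congr rfl fun s' _ => ?_
  rw [wdim_eq' hq hR S]

/-- **The defect of the product.** -/
theorem defect_eq (hq : 1 < q) (hR : IsWCoh R q) (hR' : IsWCoh R' q) (hR'' : IsWCoh R'' q)
    (hY : ∀ m, R'.MWPure q m)
    {κ : R.V ⊗[Ω] R'.V ≃ₗ[Ω] R''.V} (hκ : IsKunneth R R' R'' κ) :
    (R''.inv : ℤ) - R''.pred q =
      ∑ᶠ r : ℕ, blocks R' r * ((kdim R (r + 1) : ℤ) - wdim R q (r + 1)) := by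
  classical
  obtain ⟨S⟩ := w_exists_strings hq hR
  obtain ⟨S'⟩ := w_exists_strings hq hR'
  rw [inv_prod hq S S' hR hκ, pred_prod hq S S' hR hR' hR'' hY hκ]
  push_cast
  rw [← Finset.sum_sub_distrib]
  have h1 : ∀ r : ℕ, blocks R' r * ((kdim R (r + 1) : ℤ) - wdim R q (r + 1)) =
      (fun c : ℤ => ((kdim R (c.toNat + 1) : ℤ) - wdim R q (c.toNat + 1)) *
        (Nat.card {s : S'.ι // (S'.len s : ℤ) = c} : ℤ)) r := by
    intro r
    rw [blocks_eq hR' S' r]
    simp only [Int.toNat_natCast]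
    ring
  rw [finsum_congr h1]
  have h2 := finsum_card (fun s : S'.ι => (S'.len s : ℤ))
    (fun c : ℤ => ((kdim R (c.toNat + 1) : ℤ) - wdim R q (c.toNat + 1)))
  simp only [Int.toNat_natCast] at h2
  rw [← h2]
  symm
  have h3 : ∀ c : ℤ, c ∉ Set.range ((↑) : ℕ → ℤ) →
      ((kdim R (c.toNat + 1) : ℤ) - wdim R q (c.toNat + 1)) *
        (Nat.card {s : S'.ι // (S'.len s : ℤ) = c} : ℤ) = 0 := by
    intro c hc
    have : IsEmpty {s : S'.ι // (S'.len s : ℤ) = c} := ⟨fun s => hc ⟨_, s.2⟩⟩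
    rw [Nat.card_of_isEmpty]
    simp
  have h4 : ∑ᶠ c : ℤ, ((kdim R (c.toNat + 1) : ℤ) - wdim R q (c.toNat + 1)) *
        (Nat.card {s : S'.ι // (S'.len s : ℤ) = c} : ℤ) =
      ∑ᶠ c ∈ Set.range ((↑) : ℕ → ℤ), ((kdim R (c.toNat + 1) : ℤ) - wdim R q (c.toNat + 1)) *
        (Nat.card {s : S'.ι // (S'.len s : ℤ) = c} : ℤ) := by
    refine finsum_congr fun c => ?_
    rw [finsum_eq_if]
    split_ifs with h
    · rfl
    · exact h3 c h
  rw [h4, finsum_mem_range Nat.cast_injective]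

/-- The strings of a datum for which the dimensions of the kernels are the predicted ones. -/
lemma top_of_eq (hq : 1 < q) (hR : IsWCoh R q) (S : Strings (R.tot q) R.N)
    (hsym : ∀ c, finrank Ω (R.tot q c) = finrank Ω (R.tot q (-c)))
    (h : ∀ s, kdim R (S.len s + 1) = wdim R q (S.len s + 1)) : ∀ s, S.top s = S.len s := by
  have h1 : ∀ s, (S.len s : ℤ) ≤ S.top s ∧ S.top s ≤ S.len s + 1 := by
    intro s
    have h2 := h s
    rw [kdim_eq hR S, wdim_eq hq hR S] at h2
    have h3 := (Finset.sum_eq_sum_iff_of_le (fun s' _ => win_le (S.top s') (S.len s')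
      (S.len s + 1))).1 h2.symm s (Finset.mem_univ _)
    rw [min_self] at h3
    exact of_win h3
  have h2 := sum_wt_of_sym (w_indep_tot hq hR) S hsym
  have h3 : ∑ s, ((S.len s : ℤ) + 1) * (S.top s - S.len s) = ∑ p, S.wt p := by
    rw [Fintype.sum_sigma]
    refine Finset.sum_congr rfl fun s => fun _ => ?_
    have h4 : ∀ (l : ℕ) (t : ℤ), ∑ i : Fin (l + 1), (t - 2 * (i : ℕ)) = ((l : ℤ) + 1) * (t - l) := by
      intro l t
      rw [Fin.sum_univ_eq_sum_range (fun i => t - 2 * (i : ℤ)) (l + 1)]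
      have h5 : ∀ (n : ℕ), ∑ i ∈ Finset.range n, (t - 2 * (i : ℤ)) = n * (t - (n - 1)) := by
        intro n
        induction n with
        | zero => simp
        | succ n ih =>
          rw [Finset.sum_range_succ, ih]
          push_cast
          ring
      rw [h5]
      push_cast
      ring
    exact (h4 (S.len s) (S.top s)).symm
  rw [h2] at h3
  intro s
  have h4 := (Finset.sum_eq_zero_iff_of_nonneg
    (fun s _ => mul_nonneg (by positivity) (sub_nonneg.2 (h1 s).1))).1 h3 s (Finset.mem_univ _)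
  have h5 : (0 : ℤ) < (S.len s : ℤ) + 1 := by positivity
  rcases mul_eq_zero.1 h4 with h6 | h6
  · omega
  · omega

/-- Purity in terms of the dimensions of the kernels of the powers of `N`. -/
theorem pure_iff (hq : 1 < q) (hR : IsWCoh R q)
    (hsym : ∀ c, finrank Ω (R.tot q c) = finrank Ω (R.tot q (-c))) :
    (∀ m, R.MWPure q m) ↔ ∀ r, kdim R r = wdim R q r := by
  obtain ⟨S⟩ := w_exists_strings hq hR
  rw [w_mw_iff hq hR S]
  constructor
  · intro h r
    rw [kdim_eq hR S, wdim_eq hq hR S]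
    refine Finset.sum_congr rfl fun s _ => ?_
    rw [h s, win_self]
  · intro h
    exact top_of_eq hq hR S hsym fun s => h _

/-- **One number decides**. -/
theorem test_iff (hq : 1 < q) (hR : IsWCoh R q) (hR' : IsWCoh R' q) (hR'' : IsWCoh R'' q)
    (hY : ∀ m, R'.MWPure q m)
    (hsym : ∀ c, finrank Ω (R.tot q c) = finrank Ω (R.tot q (-c)))
    (hb : ∀ r, blocks R r ≠ 0 → blocks R' r ≠ 0)
    {κ : R.V ⊗[Ω] R'.V ≃ₗ[Ω] R''.V} (hκ : IsKunneth R R' R'' κ) :
    (∀ m, R.MWPure q m) ↔ R''.inv = R''.pred q := by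
  obtain ⟨S⟩ := w_exists_strings hq hR
  obtain ⟨S'⟩ := w_exists_strings hq hR'
  rw [inv_prod hq S S' hR hκ, pred_prod hq S S' hR hR' hR'' hY hκ]
  constructor
  · intro h
    exact Finset.sum_congr rfl fun s' _ => (pure_iff hq hR hsym).1 h _
  · intro h
    have h1 := (Finset.sum_eq_sum_iff_of_le
      (fun s' _ => wdim_le hq hR (S'.len s' + 1))).1 h.symm
    rw [w_mw_iff hq hR S]
    refine top_of_eq hq hR S hsym fun s => ?_
    have h2 : blocks R (S.len s) ≠ 0 := by
      rw [blocks_eq hR S]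
      have : Nonempty {s' : S.ι // (S.len s' : ℤ) = (S.len s : ℕ)} := ⟨⟨s, rfl⟩⟩
      have h3 : 0 < Nat.card {s' : S.ι // (S.len s' : ℤ) = (S.len s : ℕ)} := Nat.card_pos
      omega
    have h3 := hb _ h2
    rw [blocks_eq hR' S'] at h3
    have h4 : Nat.card {s' : S'.ι // (S'.len s' : ℤ) = (S.len s : ℕ)} ≠ 0 := by
      exact_mod_cast h3
    obtain ⟨⟨s', hs'⟩⟩ := (Nat.card_ne_zero.1 h4).1
    have h5 : S'.len s' = S.len s := by exact_mod_cast hs'
    have h6 := h1 s' (Finset.mem_univ _)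
    rw [h5] at h6
    exact h6.symm

end Pool.Agent.Q60.TV
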