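import Pool.Agent.Q60.TV.Tate
import Pool.Agent.Q60.RG.Log

/-!
# Test varieties for log schemes and for rigid-analytic varieties
-/

set_option autoImplicit false

open Module TensorProduct

namespace Pool.Agent.Q60.TV

universe u v w

open Pool.Agent.Y143 Pool.Agent.Y163.MW Pool.Agent.Y163.MW.Coh Pool.Agent.Q60.PL Pool.Agent.Q60.RG

variable {Ω : Type w} [Field Ω] [CharZero Ω] [IsAlgClosed Ω]

open Classical in
/-- The sum of the `dim (P_k / P_(k - 1))` over the `H^m(X)`, for `m - r < k ≤ m + r`. -/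
noncomputable def window (T : LogTheory.{u, v, w} Ω) (X : T.Var) (r : ℕ) : ℤ :=
  ∑ᶠ p : ℕ × ℤ, (if -(r : ℤ) < p.2 - p.1 ∧ p.2 - p.1 ≤ r then 1 else 0) *
    ((finrank Ω (T.P X p.1 p.2) : ℤ) - finrank Ω (T.P X p.1 (p.2 - 1)))

variable {T : LogTheory.{u, v, w} Ω} {q : ℕ}

lemma window_eq (hq : 1 < q) (hT : T.IsLog q) (X : T.Var) (r : ℕ) :
    window T X r = (wdim (T.H X) q r : ℤ) := by
  classical
  refine (finsum_weightFil hq (hT.coh X) (hT.weight X)
    (fun c => if -(r : ℤ) < c ∧ c ≤ r then 1 else 0)).trans ?_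
  rw [finsum_eq_sum_of_support_subset (s := Finset.Ioc (-(r : ℤ)) r)]
  · rw [wdim]
    push_cast
    refine Finset.sum_congr rfl fun c hc => ?_
    rw [if_pos (Finset.mem_Ioc.1 hc), one_mul]
  · intro c hc
    by_contra hcon
    apply hc
    rw [Finset.mem_coe, Finset.mem_Ioc] at hcon
    simp [hcon]

end Pool.Agent.Q60.TV
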