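import Pool.Agent.Q60.TV.Core

/-!
# Powers of a Tate curve as test varieties
-/

set_option autoImplicit false

open Module TensorProduct

namespace Pool.Agent.Q60.TV

universe u v w

open Pool.Agent.Y143 Pool.Agent.Y163.MW Pool.Agent.Y163.MW.Coh Pool.Agent.Q60.PL Pool.Agent.Q60.RG

variable {Ω : Type w} [Field Ω]

/-- The cohomology of a Tate curve: `H^0` and `H^2` have dimension one, `H^1` has a basis `b 1, b 2`
with `F (b 1) = q b 1`, `F (b 2) = b 2`, `N (b 1) = b 2`, `N (b 2) = 0`. -/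
def IsTateCurve (R : Coh.{v, w} Ω) (q : ℕ) : Prop :=
  ∃ b : Basis (Fin 4) Ω R.V, (b 0 ∈ R.gr 0 ∧ b 1 ∈ R.gr 1 ∧ b 2 ∈ R.gr 1 ∧ b 3 ∈ R.gr 2) ∧
    (R.F (b 0) = b 0 ∧ R.F (b 1) = (q : Ω) • b 1 ∧ R.F (b 2) = b 2 ∧ R.F (b 3) = (q : Ω) • b 3) ∧
    (R.N (b 0) = 0 ∧ R.N (b 1) = b 2 ∧ R.N (b 2) = 0 ∧ R.N (b 3) = 0)

section count

variable {I : Type} [Fintype I]

/-- the number of the `i` with `a i = x` -/
noncomputable def cnt (a : I → ℤ) (x : ℤ) : ℤ := by
  classical exact ((Finset.univ.filter (fun i => a i = x)).card : ℤ)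

lemma cnt_eq (a : I → ℤ) (x : ℤ) : cnt a x = ∑ i, if a i = x then 1 else 0 := by
  classical
  rw [cnt, Finset.card_filter]
  push_cast
  rfl

/-- the exponents of a Tate curve -/
def ta : Fin 4 → ℤ := ![0, 1, -1, 0]

lemma cnt_prod (a : I → ℤ) (x : ℤ) : cnt (fun p : Fin 4 × I => ta p.1 + a p.2) x =
    2 * cnt a x + cnt a (x - 1) + cnt a (x + 1) := by
  classical
  rw [cnt_eq, Fintype.sum_prod_type, Fin.sum_univ_four, cnt_eq, cnt_eq, cnt_eq, Finset.mul_sum]
  rw [← Finset.sum_add_distrib, ← Finset.sum_add_distrib, ← Finset.sum_add_distrib,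
    ← Finset.sum_add_distrib, ← Finset.sum_add_distrib]
  refine Finset.sum_congr rfl fun i _ => ?_
  simp only [ta, Matrix.cons_val_zero, Matrix.cons_val_one, Matrix.cons_val]
  split_ifs <;> omega

lemma win_succ (a : I → ℤ) (k : ℕ) :
    (Nat.card {i // -((k + 1 : ℕ) : ℤ) < a i ∧ a i ≤ (k + 1 : ℕ)} : ℤ) =
      Nat.card {i // -(k : ℤ) < a i ∧ a i ≤ k} + cnt a (k + 1) + cnt a (-k) := by
  classical
  rw [Nat.card_eq_fintype_card, Nat.card_eq_fintype_card, Fintype.card_subtype,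
    Fintype.card_subtype, Finset.card_filter, Finset.card_filter, cnt_eq, cnt_eq]
  push_cast
  rw [← Finset.sum_add_distrib, ← Finset.sum_add_distrib]
  refine Finset.sum_congr rfl fun i _ => ?_
  split_ifs <;> omega

end count

variable [CharZero Ω] {R R' R'' : Coh.{v, w} Ω} {q : ℕ}

section adp

variable {I : Type} [Fintype I] {a : I → ℤ}

lemma kdim_adp {c : I → ℤ} (H : R.Adp q a c) (k : ℕ) :
    kdim R k = Nat.card {i // -(k : ℤ) < a i ∧ a i ≤ k} := by
  obtain ⟨b, e, h, hs, -⟩ := H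
  exact finrank_ker_sl2 hs k

lemma blocks_adp {c : I → ℤ} (H : R.Adp q a c) (hs : ∀ x, cnt a x = cnt a (-x)) (r : ℕ) :
    blocks R r = cnt a r - cnt a (r + 2) := by
  have h1 := win_succ a r
  have h2 := win_succ a (r + 1)
  rw [← kdim_adp H, ← kdim_adp H] at h1 h2
  rw [← hs] at h1 h2
  push_cast at h1 h2
  rw [blocks, h2, h1]
  have e : (r : ℤ) + 1 + 1 = r + 2 := by ring
  rw [e]
  ring

lemma finrank_adp (hq : 1 < q) (hR : IsWCoh R q) {c : I → ℤ} (H : R.Adp q a c) (x : ℤ) :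
    (finrank Ω (R.tot q x) : ℤ) = cnt c x := by
  classical
  rw [w_finrank_tot hq hR H, Nat.card_eq_fintype_card, Fintype.card_subtype, cnt]

end adp

/-- The cohomology has a basis adapted to both the weights and the monodromy. -/
def Nice (R : Coh.{v, w} Ω) (q n : ℕ) : Prop :=
  ∃ (I : Type) (_ : Fintype I) (a : I → ℤ), R.Adp q a a ∧ (∀ x, cnt a x = cnt a (-x)) ∧
    ∀ r : ℕ, 0 ≤ cnt a r - cnt a (r + 2) ∧ (r ≤ n → 0 < cnt a r - cnt a (r + 2))

lemma tate_adp (hq : 1 < q) (h : IsTateCurve R q) : R.Adp q ta ta := by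
  obtain ⟨b, ⟨g0, g1, g2, g3⟩, ⟨f0, f1, f2, f3⟩, n0, n1, n2, n3⟩ := h
  have hw : ∀ (m : ℕ) (c : ℤ) (k : ℕ) (x : R.V), x ∈ R.gr m → (m : ℤ) + c = 2 * k →
      R.F x = ((q : Ω) ^ k) • x → x ∈ R.tot q c := by
    intro m c k x hx hc hF
    refine exc_le_tot m c ?_
    have h1 : IsWeilNumber q (m + c) ((q : Ω) ^ k) := by
      rw [hc]
      exact weil_natPow (by omega) k
    refine Submodule.mem_iSup_of_mem _ (Submodule.mem_iSup_of_mem h1 ?_)
    refine Submodule.mem_inf.2 ⟨hx, ?_⟩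
    rw [Module.End.mem_maxGenEigenspace]
    exact ⟨1, by simp [hF]⟩
  let e : Module.End Ω R.V := b.constr Ω ![0, 0, b 1, 0]
  let h : Module.End Ω R.V := b.constr Ω ![0, b 1, -b 2, 0]
  have e0 : e (b 0) = 0 := by simp [e]
  have e1 : e (b 1) = 0 := by simp [e]
  have e2 : e (b 2) = b 1 := by simp [e]
  have e3 : e (b 3) = 0 := by simp [e]
  have h0 : h (b 0) = 0 := by simp [h]
  have h1 : h (b 1) = b 1 := by simp [h]
  have h2 : h (b 2) = -b 2 := by simp [h]
  have h3 : h (b 3) = 0 := by simp [h]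
  refine ⟨b, e, h, ⟨?_, ?_, ?_, ?_⟩, ?_⟩
  · intro i
    fin_cases i <;> simp [ta, h0, h1, h2, h3]
  · apply b.ext
    intro i
    fin_cases i <;>
      simp [LinearMap.sub_apply, Module.End.mul_apply, e0, e1, e2, e3, n0, n1, n2, n3, h0, h1,
        h2, h3]
  · apply b.ext
    intro i
    fin_cases i
    · simp [n0, h0]
    · simp only [Fin.mk_one, Fin.isValue, LinearMap.sub_apply, Module.End.mul_apply, n1, h1, h2,
        LinearMap.smul_apply]
      rw [neg_smul, ofNat_smul_eq_nsmul, two_nsmul]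
      abel
    · simp [n2, h2]
    · simp [n3, h3]
  · apply b.ext
    intro i
    fin_cases i
    · simp [e0, h0]
    · simp [e1, h1]
    · simp only [Fin.reduceFinMk, Fin.isValue, LinearMap.sub_apply, Module.End.mul_apply, e2, h1,
        h2, map_neg, LinearMap.smul_apply]
      rw [ofNat_smul_eq_nsmul, two_nsmul]
      abel
    · simp [e3, h3]
  · intro i
    fin_cases i
    · exact hw 0 0 0 _ g0 (by norm_num) (by simpa using f0)
    · exact hw 1 1 1 _ g1 (by norm_num) (by simpa using f1)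
    · exact hw 1 (-1) 0 _ g2 (by norm_num) (by simpa using f2)
    · exact hw 2 0 1 _ g3 (by norm_num) (by simpa using f3)

lemma nice_tate (hq : 1 < q) (h : IsTateCurve R q) : Nice R q 1 := by
  have hc : ∀ x, cnt ta x = 2 * (if x = 0 then 1 else 0) + (if x = 1 then 1 else 0) +
      (if x = -1 then 1 else 0) := by
    intro x
    rw [cnt_eq, Fin.sum_univ_four]
    simp only [ta, Matrix.cons_val_zero, Matrix.cons_val_one, Matrix.cons_val]
    split_ifs <;> omega
  refine ⟨Fin 4, inferInstance, ta, tate_adp hq h, fun x => ?_, fun r => ⟨?_, fun hr => ?_⟩⟩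
  · rw [hc, hc]
    split_ifs <;> omega
  · rw [hc, hc]
    split_ifs <;> omega
  · rw [hc, hc]
    split_ifs <;> omega

lemma nice_prod (hq : 1 < q) (h : IsTateCurve R q) {n : ℕ} (h' : Nice R' q n)
    {κ : R.V ⊗[Ω] R'.V ≃ₗ[Ω] R''.V} (hκ : IsKunneth R R' R'' κ) : Nice R'' q (n + 1) := by
  obtain ⟨I, _, a, H, hs, hp⟩ := h'
  refine ⟨Fin 4 × I, inferInstance, fun p => ta p.1 + a p.2, (tate_adp hq h).prod H (by omega) hκ,
    fun x => ?_, fun r => ?_⟩
  · rw [cnt_prod, cnt_prod, hs x, hs (x - 1), hs (x + 1)]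
    have e1 : -(x - 1) = -x + 1 := by ring
    have e2 : -(x + 1) = -x - 1 := by ring
    rw [e1, e2]
    ring
  · have key : cnt (fun p : Fin 4 × I => ta p.1 + a p.2) r -
        cnt (fun p : Fin 4 × I => ta p.1 + a p.2) (r + 2) = 2 * (cnt a r - cnt a (r + 2)) +
        (cnt a (r + 1) - cnt a (r + 1 + 2)) + (cnt a (r - 1) - cnt a (r + 1)) := by
      rw [cnt_prod, cnt_prod]
      have e1 : (r : ℤ) + 2 - 1 = r + 1 := by ring
      have e2 : (r : ℤ) + 2 + 1 = r + 1 + 2 := by ring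
      rw [e1, e2]
      ring
    rw [key]
    have h0 := hp r
    have h1 := hp (r + 1)
    push_cast at h1
    cases r with
    | zero =>
      have h2 : cnt a ((0 : ℕ) - 1 : ℤ) = cnt a ((0 : ℕ) + 1 : ℤ) := by
        rw [hs ((0 : ℕ) - 1 : ℤ)]
        congr 1
      rw [h2]
      constructor
      · linarith [h0.1, h1.1]
      · intro _
        linarith [h0.2 (by omega), h1.1]
    | succ r =>
      have h2 := hp r
      have e3 : ((r + 1 : ℕ) : ℤ) - 1 = r := by push_cast; ring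
      have e4 : ((r + 1 : ℕ) : ℤ) + 1 = r + 2 := by push_cast; ring
      rw [e3, e4]
      rw [e4] at h1
      constructor
      · linarith [h0.1, h1.1, h2.1]
      · intro hr
        rcases Nat.lt_or_ge n (r + 1) with h3 | h3
        · linarith [h0.1, h1.1, h2.2 (by omega)]
        · linarith [h0.2 h3, h1.1, h2.1]

variable [IsAlgClosed Ω]

lemma Nice.pure (hq : 1 < q) (hR : IsWCoh R q) {n : ℕ} (h : Nice R q n) :
    (∀ m, R.MWPure q m) := by
  obtain ⟨I, _, a, H, hs, -⟩ := h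
  rw [pure_iff hq hR (fun c => by
    have h1 := finrank_adp hq hR H c
    have h2 := finrank_adp hq hR H (-c)
    rw [← hs] at h2
    omega)]
  intro r
  rw [kdim_adp H]
  induction r with
  | zero =>
    rw [wdim]
    simp only [Nat.cast_zero, neg_zero, Finset.Ioc_self, Finset.sum_empty]
    rw [Nat.card_eq_zero]
    left
    exact ⟨fun i => by have := i.2; omega⟩
  | succ r ih =>
    have h1 := win_succ a r
    have h2 : (wdim R q (r + 1) : ℤ) = wdim R q r + cnt a (r + 1) + cnt a (-r) := by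
      rw [← finrank_adp hq hR H, ← finrank_adp hq hR H, wdim, wdim]
      have h3 : Finset.Ioc (-((r + 1 : ℕ) : ℤ)) (r + 1 : ℕ) =
          insert (-(r : ℤ)) (insert ((r : ℤ) + 1) (Finset.Ioc (-(r : ℤ)) r)) := by
        ext x
        simp only [Finset.mem_Ioc, Finset.mem_insert]
        push_cast
        omega
      rw [h3, Finset.sum_insert, Finset.sum_insert]
      · push_cast
        ring
      · simp only [Finset.mem_Ioc]
        omega
      · simp only [Finset.mem_Ioc, Finset.mem_insert]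
        omega
    omega

lemma Nice.blocks_pos {n : ℕ} (h : Nice R q n) {r : ℕ} (hr : r ≤ n) : blocks R r ≠ 0 := by
  obtain ⟨I, _, a, H, hs, hp⟩ := h
  rw [blocks_adp H hs]
  exact ((hp r).2 hr).ne'

lemma blocks_zero (hR : IsWCoh R q) {n : ℕ} (hN : R.N ^ n = 0) {r : ℕ} (hr : n ≤ r) :
    blocks R r = 0 := by
  have h1 : ∀ k, n ≤ k → kdim R k = finrank Ω R.V := by
    intro k hk
    rw [kdim, pow_eq_zero_of_le hk hN, LinearMap.ker_zero, finrank_top]
  rw [blocks, h1 _ hr, h1 (r + 1) (by omega), h1 (r + 2) (by omega)]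
  ring

/-- Powers of a Tate curve as test varieties. -/
theorem tate_test (hq : 1 < q) {A : ℕ → Coh.{v, w} Ω} (hA : ∀ n, IsWCoh (A n) q)
    (hE : IsTateCurve (A 0) q) (hk : ∀ n, ∃ κ, IsKunneth (A 0) (A n) (A (n + 1)) κ)
    (hR : IsWCoh R q) (hsym : ∀ c, finrank Ω (R.tot q c) = finrank Ω (R.tot q (-c)))
    (n : ℕ) (hN : R.N ^ (n + 2) = 0) (hR'' : IsWCoh R'' q)
    {κ : R.V ⊗[Ω] (A n).V ≃ₗ[Ω] R''.V} (hκ : IsKunneth R (A n) R'' κ) :
    (∀ m, R.MWPure q m) ↔ R''.inv = R''.pred q := by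
  have h1 : ∀ n, Nice (A n) q (n + 1) := by
    intro n
    induction n with
    | zero => exact nice_tate hq hE
    | succ n ih =>
      obtain ⟨κ', hκ'⟩ := hk n
      exact nice_prod hq hE ih hκ'
  refine test_iff hq hR (hA n) hR'' ((h1 n).pure hq (hA n)) hsym (fun r hr => ?_) hκ
  refine (h1 n).blocks_pos ?_
  by_contra hcon
  exact hr (blocks_zero hR hN (by omega))

end Pool.Agent.Q60.TV
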